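import Pool.Agent.BED.Stmts

/-!
# Squad BED (MP_be01ff_an), row SYG: the Sobolev space and a linear isometry

The proof follows the files of rows MGP, TGT, THG of squad BEG (helper71, helper79, helper29).
-/

set_option autoImplicit false

namespace Pool.Agent.BED.H89

open Set Filter Topology MeasureTheory
open scoped InnerProductSpace ENNReal
open Pool.Agent.BE01

noncomputable section

theorem preim {d : ℕ} {Ω : Set (En d)} {g : En d ≃ₗᵢ[ℝ] En d} (hg : ∀ x, g x ∈ Ω ↔ x ∈ Ω) :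
    g ⁻¹' Ω = Ω := Set.ext hg

theorem mpres {d : ℕ} {Ω : Set (En d)} {g : En d ≃ₗᵢ[ℝ] En d} (hΩ : IsOpen Ω)
    (hg : ∀ x, g x ∈ Ω ↔ x ∈ Ω) : MeasurePreserving g (mu Ω) (mu Ω) := by
  have h := (LinearIsometryEquiv.measurePreserving g).restrict_preimage hΩ.measurableSet
  rw [preim hg] at h
  exact h

theorem tstComp {d : ℕ} {Ω : Set (En d)} {g : En d ≃ₗᵢ[ℝ] En d} (hg : ∀ x, g x ∈ Ω ↔ x ∈ Ω)
    {ψ : En d → ℝ} (hψ : Tst Ω ψ) : Tst Ω (fun x => ψ (g x)) ∧
      ∀ x, gradient (fun y => ψ (g y)) x = g.symm (gradient ψ (g x)) := by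
  obtain ⟨h1, h2, h3⟩ := hψ
  refine ⟨⟨h1.comp (g.toContinuousLinearEquiv : En d →L[ℝ] En d).contDiff, ?_, ?_⟩, ?_⟩
  · exact h2.comp_homeomorph g.toHomeomorph
  · have h5 : tsupport (ψ ∘ g.toHomeomorph) = g.toHomeomorph ⁻¹' tsupport ψ :=
      tsupport_comp_eq_preimage ψ g.toHomeomorph
    have h6 : tsupport (fun x => ψ (g x)) = g ⁻¹' tsupport ψ := h5
    rw [h6, ← preim hg]
    exact preimage_mono h3
  · intro x
    have hd : HasGradientAt ψ (gradient ψ (g x)) (g x) :=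
      ((h1.differentiable (by simp)) (g x)).hasGradientAt
    have hd2 := (hasGradientAt_iff_hasFDerivAt.1 hd).comp x
      ((g.toContinuousLinearEquiv : En d →L[ℝ] En d).hasFDerivAt (x := x))
    have hd3 : HasGradientAt (fun y => ψ (g y)) (g.symm (gradient ψ (g x))) x := by
      rw [hasGradientAt_iff_hasFDerivAt]
      refine HasFDerivAt.congr_fderiv hd2 ?_
      ext w
      show ⟪gradient ψ (g x), g w⟫_ℝ = ⟪g.symm (gradient ψ (g x)), w⟫_ℝ
      rw [← g.inner_map_map (g.symm (gradient ψ (g x))) w, g.apply_symm_apply]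
    exact hd3.gradient

/-- SYG. -/
theorem syg : SygStmt := by
  intro d Ω g u G hΩ hg hu
  have hmp := mpres hΩ.1 hg
  let L : En d →L[ℝ] En d := (g.symm.toContinuousLinearEquiv : En d →L[ℝ] En d)
  have hL : ∀ v, L v = g.symm v := fun v => rfl
  let Φ : Lp ℝ 2 (mu Ω) × Lp (En d) 2 (mu Ω) → Lp ℝ 2 (mu Ω) × Lp (En d) 2 (mu Ω) := fun P =>
    (Lp.compMeasurePreserving g hmp P.1,
      L.compLpL 2 (mu Ω) (Lp.compMeasurePreserving g hmp P.2))
  have hc : Continuous Φ :=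
    ((Lp.isometry_compMeasurePreserving hmp).continuous.comp continuous_fst).prodMk
      ((L.compLpL 2 (mu Ω)).continuous.comp
        ((Lp.isometry_compMeasurePreserving hmp).continuous.comp continuous_snd))
  have hmaps : MapsTo Φ {P | ∃ ψ, Tst Ω ψ ∧ P.1 =ᵐ[mu Ω] ψ ∧ P.2 =ᵐ[mu Ω] gradient ψ}
      {P | ∃ ψ, Tst Ω ψ ∧ P.1 =ᵐ[mu Ω] ψ ∧ P.2 =ᵐ[mu Ω] gradient ψ} := by
    rintro P ⟨ψ, hψ, h1, h2⟩
    obtain ⟨ht1, ht2⟩ := tstComp hg hψ
    refine ⟨fun x => ψ (g x), ht1, ?_, ?_⟩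
    · exact (Lp.coeFn_compMeasurePreserving P.1 hmp).trans
        (hmp.quasiMeasurePreserving.ae_eq_comp h1)
    · filter_upwards [L.coeFn_compLpL (p := 2) (Lp.compMeasurePreserving g hmp P.2),
        Lp.coeFn_compMeasurePreserving P.2 hmp, hmp.quasiMeasurePreserving.ae_eq_comp h2]
        with x ha hb hc
      show (L.compLpL 2 (mu Ω) (Lp.compMeasurePreserving g hmp P.2)) x = _
      rw [ha, hb, ht2 x, hL]
      exact congrArg g.symm hc
  have hmem : Φ (u, G) ∈ H10 Ω := map_mem_closure hc hu hmaps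
  refine ⟨(Φ (u, G)).1, (Φ (u, G)).2, hmem, ?_, ?_⟩
  · exact Lp.coeFn_compMeasurePreserving u hmp
  · filter_upwards [L.coeFn_compLpL (p := 2) (Lp.compMeasurePreserving g hmp G),
      Lp.coeFn_compMeasurePreserving G hmp] with x ha hb
    show (L.compLpL 2 (mu Ω) (Lp.compMeasurePreserving g hmp G)) x = _
    rw [ha, hb, hL]
    rfl

end

end Pool.Agent.BED.H89
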